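import Mathlib
import Pool.Agent.Lib.MP_f28597_an.Comb
import Pool.Agent.Lib.MP_f28597_an.LpPart

set_option autoImplicit false

open MeasureTheory
open scoped ENNReal

namespace Pool.Agent.Results.MP_f28597_an.AlmostGreedy

variable {X : Type*} [MeasurableSpace X] {μ : Measure X} {p : ℝ≥0∞}

/-- The norming functional `F_f(g) = ‖f‖^(1-p) ∫ |f|^(p-2) f g dμ` of `f ≠ 0` in real `L_p(μ)`. -/
noncomputable def normingF (f g : Lp ℝ p μ) : ℝ :=
  ‖f‖ ^ (1 - p.toReal) * ∫ x, |f x| ^ (p.toReal - 2) * f x * g x ∂μ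

/-- The span of the first `m` elements `Ψ (j 0), …, Ψ (j (m-1))` chosen by the algorithm. -/
def chosenSpan (Ψ : ℕ → Lp ℝ p μ) (j : ℕ → ℕ) (m : ℕ) : Submodule ℝ (Lp ℝ p μ) :=
  Submodule.span ℝ {g | ∃ k < m, g = Ψ (j k)}

/-- `IsRun Ψ t f₀ j f`: `f 0 = f₀, f 1, f 2, …` are the remainders of a run of the Weak Chebyshev
Greedy Algorithm with weakness parameter `t` and respect to the system `Ψ`, started at `f₀`; the
element chosen at step `m + 1` is `Ψ (j m)`. -/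
structure IsRun (Ψ : ℕ → Lp ℝ p μ) (t : ℝ) (f₀ : Lp ℝ p μ) (j : ℕ → ℕ) (f : ℕ → Lp ℝ p μ) :
    Prop where
  start : f 0 = f₀
  greedy : ∀ m, f m ≠ 0 → ∀ i, t * |normingF (f m) (Ψ i)| ≤ |normingF (f m) (Ψ (j m))|
  chebyshev : ∀ m, f m ≠ 0 → ∃ G ∈ chosenSpan Ψ j (m + 1),
    (∀ G' ∈ chosenSpan Ψ j (m + 1), ‖f₀ - G‖ ≤ ‖f₀ - G'‖) ∧ f (m + 1) = f₀ - G
  stop : ∀ m, f m = 0 → f (m + 1) = 0

/-- Best `m`-term approximation error of `f` with respect to `Ψ`. -/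
noncomputable def sigma (Ψ : ℕ → Lp ℝ p μ) (m : ℕ) (f : Lp ℝ p μ) : ℝ :=
  ⨅ s : {Λ : Finset ℕ // Λ.card ≤ m} × (ℕ → ℝ), ‖f - ∑ i ∈ s.1.1, s.2 i • Ψ i‖

open Pool.Agent.MPf28597

section proof

variable [Fact (1 ≤ p)]

omit [Fact (1 ≤ p)] in
lemma chosen_mono (Ψ : ℕ → Lp ℝ p μ) (j : ℕ → ℕ) (i : ℕ) :
    chosenSpan Ψ j i ≤ chosenSpan Ψ j (i + 1) := by
  refine Submodule.span_mono ?_
  rintro g ⟨k, hk, rfl⟩
  exact ⟨k, by omega, rfl⟩

lemma run_inv (Ψ : ℕ → Lp ℝ p μ) (t : ℝ) (f₀ : Lp ℝ p μ) (j : ℕ → ℕ) (f : ℕ → Lp ℝ p μ)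
    (hr : IsRun Ψ t f₀ j f) (i : ℕ) :
    ∃ G ∈ chosenSpan Ψ j i, f i = f₀ - G ∧ ∀ G' ∈ chosenSpan Ψ j i, ‖f i‖ ≤ ‖f₀ - G'‖ := by
  induction i with
  | zero =>
    refine ⟨0, Submodule.zero_mem _, by rw [hr.start, sub_zero], ?_⟩
    intro G' hG'
    have h0 : {g | ∃ k < 0, g = Ψ (j k)} = (∅ : Set (Lp ℝ p μ)) := by
      ext g; simp
    rw [chosenSpan, h0, Submodule.span_empty, Submodule.mem_bot] at hG'
    rw [hG', hr.start, sub_zero]
  | succ i ih =>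
    rcases eq_or_ne (f i) 0 with h0 | h0
    · obtain ⟨G, hG, hfG, _⟩ := ih
      have h1 := hr.stop i h0
      refine ⟨G, chosen_mono Ψ j i hG, by rw [h1, ← hfG, h0], ?_⟩
      intro G' _
      rw [h1, norm_zero]
      exact norm_nonneg _
    · obtain ⟨G, hG, hmin, hfG⟩ := hr.chebyshev i h0
      exact ⟨G, hG, hfG, fun G' hG' => by rw [hfG]; exact hmin G' hG'⟩

lemma run_anti (Ψ : ℕ → Lp ℝ p μ) (t : ℝ) (f₀ : Lp ℝ p μ) (j : ℕ → ℕ) (f : ℕ → Lp ℝ p μ)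
    (hr : IsRun Ψ t f₀ j f) : Antitone (fun i => ‖f i‖) := by
  refine antitone_nat_of_succ_le fun i => ?_
  obtain ⟨G, hG, hfG, _⟩ := run_inv Ψ t f₀ j f hr i
  obtain ⟨_, _, _, hmin⟩ := run_inv Ψ t f₀ j f hr (i + 1)
  show ‖f (i + 1)‖ ≤ ‖f i‖
  rw [hfG]
  exact hmin G (chosen_mono Ψ j i hG)

/-- the constant `κ` -/
noncomputable def kap (q t δ : ℝ) : ℝ := (2 / q) * (1 / (12 * Real.exp q)) * (t * δ) ^ 2

lemma kap_pos (q t δ : ℝ) (hq : 2 ≤ q) (ht : 0 < t) (hδ : 0 < δ) : 0 < kap q t δ := by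
  unfold kap
  have := Real.exp_pos q
  positivity

/-- one step of the algorithm -/
lemma one_step (hp2 : 2 ≤ p) (hpt : p ≠ ⊤) (Ψ : ℕ → Lp ℝ p μ) (hnorm : ∀ i, ‖Ψ i‖ = 1)
    (t : ℝ) (ht : 0 < t) (f₀ : Lp ℝ p μ) (j : ℕ → ℕ) (f : ℕ → Lp ℝ p μ)
    (hr : IsRun Ψ t f₀ j f) (Λ : Finset ℕ) (c : ℕ → ℝ) (δ : ℝ) (hδ : 0 < δ) (i : ℕ)
    (hi : ‖f₀ - ∑ l ∈ Λ, c l • Ψ l‖ ≤ (1 - δ) * ‖f i‖) (hfi : f i ≠ 0) (hfi1 : f (i + 1) ≠ 0)
    (hapos : 0 < ∑ l ∈ Λ with ∀ k < i, j k ≠ l, |c l|) :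
    1 / ‖f i‖ ^ 2 + kap p.toReal t δ * (1 / (∑ l ∈ Λ with ∀ k < i, j k ≠ l, |c l|) ^ 2)
      ≤ 1 / ‖f (i + 1)‖ ^ 2 := by
  have hq := q_ge hp2 hpt
  set q := p.toReal with hqdef
  set h := f₀ - ∑ l ∈ Λ, c l • Ψ l with hh
  set a := ∑ l ∈ Λ with ∀ k < i, j k ≠ l, |c l| with ha
  have hN : 0 < ‖f i‖ := norm_pos_iff.mpr hfi
  have hN' : 0 < ‖f (i + 1)‖ := norm_pos_iff.mpr hfi1
  set N := ‖f i‖ with hNdef
  set F := pairL hp2 hpt (f i) with hF
  have hN1 : 0 < N ^ (q - 1) := Real.rpow_pos_of_pos hN _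
  obtain ⟨G, hG, hfG, hmin⟩ := run_inv Ψ t f₀ j f hr i
  -- the functional annihilates the chosen span
  have hann : ∀ g ∈ chosenSpan Ψ j i, F g = 0 := by
    intro g hg
    refine pair_zero hp2 hpt (f i) g fun l => ?_
    have h1 := hmin (G - l • g) (Submodule.sub_mem _ hG (Submodule.smul_mem _ _ hg))
    have h2 : f₀ - (G - l • g) = f i + l • g := by rw [hfG]; abel
    rwa [h2] at h1
  have hannΨ : ∀ k < i, F (Ψ (j k)) = 0 := fun k hk =>
    hann _ (Submodule.subset_span ⟨k, hk, rfl⟩)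
  -- expansion of the norm
  have e1 : N ^ q = F h + ∑ l ∈ Λ with ∀ k < i, j k ≠ l, c l * F (Ψ l) := by
    have h1 : F (f i) = N ^ q := pairL_self hp2 hpt (f i)
    have h2 : f i = h + ∑ l ∈ Λ, c l • Ψ l - G := by rw [hfG, hh]; abel
    rw [← h1]
    conv_lhs => rw [h2]
    rw [map_sub, hann G hG, sub_zero, map_add, map_sum]
    congr 1
    rw [Finset.sum_filter]
    refine Finset.sum_congr rfl fun l _ => ?_
    rw [map_smul, smul_eq_mul]
    split_ifs with hl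
    · rfl
    · push Not at hl
      obtain ⟨k, hk, hkl⟩ := hl
      rw [← hkl, hannΨ k hk, mul_zero]
  -- the greedy choice
  have hF1 : ∀ g, normingF (f i) g = N ^ (1 - q) * F g := fun g => rfl
  have hNm : 0 < N ^ (1 - q) := Real.rpow_pos_of_pos hN _
  have hgr : ∀ l, t * |F (Ψ l)| ≤ |F (Ψ (j i))| := by
    intro l
    have h1 := hr.greedy i hfi l
    rw [hF1, hF1, abs_mul, abs_mul, abs_of_pos hNm] at h1
    have h2 : N ^ (1 - q) * (t * |F (Ψ l)|) ≤ N ^ (1 - q) * |F (Ψ (j i))| := by linarith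
    exact le_of_mul_le_mul_left h2 hNm
  have hsum : t * (∑ l ∈ Λ with ∀ k < i, j k ≠ l, c l * F (Ψ l)) ≤ a * |F (Ψ (j i))| := by
    rw [Finset.mul_sum, ha, Finset.sum_mul]
    refine Finset.sum_le_sum fun l _ => ?_
    have h1 : c l * F (Ψ l) ≤ |c l| * |F (Ψ l)| := by
      rw [← abs_mul]; exact le_abs_self _
    have h2 := mul_le_mul_of_nonneg_left (hgr l) (abs_nonneg (c l))
    nlinarith
  have hFh : F h ≤ N ^ (q - 1) * ((1 - δ) * N) := by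
    have h1 := pairL_bound hp2 hpt (f i) h
    exact (le_abs_self _).trans (h1.trans (mul_le_mul_of_nonneg_left hi hN1.le))
  have e2 : N ^ q = N ^ (q - 1) * N := by
    have : N ^ q = N ^ ((q - 1) + 1) := by ring_nf
    rw [this, Real.rpow_add hN, Real.rpow_one]
  set Θ := |F (Ψ (j i))| / N ^ (q - 1) with hΘ
  have hΘ0 : 0 ≤ Θ := div_nonneg (abs_nonneg _) hN1.le
  have hΘa : t * δ * N ≤ a * Θ := by
    have h1 : N ^ (q - 1) * (t * δ * N) ≤ a * |F (Ψ (j i))| := by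
      rw [e2] at e1
      nlinarith [mul_le_mul_of_nonneg_left hFh ht.le]
    have h2 : a * |F (Ψ (j i))| = N ^ (q - 1) * (a * Θ) := by
      rw [hΘ]; field_simp
    rw [h2] at h1
    exact le_of_mul_le_mul_left h1 hN1
  -- descent
  obtain ⟨l, hl⟩ := descent hp2 hpt (f i) (Ψ (j i)) hfi (hnorm _)
  obtain ⟨_, _, _, hmin'⟩ := run_inv Ψ t f₀ j f hr (i + 1)
  have hdesc : ‖f (i + 1)‖ ≤ ‖f i + l • Ψ (j i)‖ := by
    have h1 := hmin' (G - l • Ψ (j i)) (Submodule.sub_mem _ (chosen_mono Ψ j i hG)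
      (Submodule.smul_mem _ _ (Submodule.subset_span ⟨i, by omega, rfl⟩)))
    have h2 : f₀ - (G - l • Ψ (j i)) = f i + l • Ψ (j i) := by rw [hfG]; abel
    rwa [h2] at h1
  have hdq : ‖f (i + 1)‖ ^ q ≤ N ^ q * (1 - (1 / (12 * Real.exp q)) * Θ ^ 2) :=
    (Real.rpow_le_rpow (norm_nonneg _) hdesc (by linarith)).trans hl
  have hexp := Real.exp_pos q
  have hinv := inv_sq_step q N ‖f (i + 1)‖ ((1 / (12 * Real.exp q)) * Θ ^ 2) hq hN hN'
    (by positivity) hdq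
  refine le_trans ?_ hinv
  have h3 : kap q t δ * (1 / a ^ 2) ≤ (2 / q) * ((1 / (12 * Real.exp q)) * Θ ^ 2) / N ^ 2 := by
    have h4 : (t * δ) ^ 2 * N ^ 2 ≤ a ^ 2 * Θ ^ 2 := by
      have h5 : 0 ≤ t * δ * N := by positivity
      have := mul_le_mul hΘa hΘa h5 (h5.trans hΘa)
      nlinarith
    have h6 : (t * δ) ^ 2 * (1 / a ^ 2) ≤ Θ ^ 2 / N ^ 2 := by
      rw [mul_one_div, div_le_div_iff₀ (by positivity) (by positivity)]
      linarith
    unfold kap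
    calc (2 / q) * (1 / (12 * Real.exp q)) * (t * δ) ^ 2 * (1 / a ^ 2)
        = (2 / q) * (1 / (12 * Real.exp q)) * ((t * δ) ^ 2 * (1 / a ^ 2)) := by ring
      _ ≤ (2 / q) * (1 / (12 * Real.exp q)) * (Θ ^ 2 / N ^ 2) :=
          mul_le_mul_of_nonneg_left h6 (by positivity)
      _ = _ := by ring
  linarith

lemma quad_sub [IsFiniteMeasure μ] (hp2 : 2 ≤ p) (hpt : p ≠ ⊤) (v s : Lp ℝ p μ) :
    innL hp2 hpt (v - s) (v - s) = innL hp2 hpt v v - 2 * innL hp2 hpt s v + innL hp2 hpt s s := by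
  have h1 : innL hp2 hpt (v - s) v = innL hp2 hpt v v - innL hp2 hpt s v := by
    rw [innL_comm hp2 hpt v (v - s), map_sub, innL_comm hp2 hpt s v]
  have h2 : innL hp2 hpt (v - s) s = innL hp2 hpt s v - innL hp2 hpt s s := by
    rw [innL_comm hp2 hpt s (v - s), map_sub]
  rw [map_sub, h1, h2]
  ring

/-- the coefficient bound (Bessel) -/
lemma bessel [IsFiniteMeasure μ] (hp2 : 2 ≤ p) (hpt : p ≠ ⊤) (Ψ : ℕ → Lp ℝ p μ)
    (hnorm : ∀ i, ‖Ψ i‖ = 1) (horth : ∀ i k, i ≠ k → ∫ x, Ψ i x * Ψ k x ∂μ = 0)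
    (M : ℝ) (hM : 0 ≤ M) (hbdd : ∀ i, ∀ᵐ x ∂μ, |Ψ i x| ≤ M)
    (t : ℝ) (f₀ : Lp ℝ p μ) (j : ℕ → ℕ) (f : ℕ → Lp ℝ p μ)
    (hr : IsRun Ψ t f₀ j f) (Λ : Finset ℕ) (c : ℕ → ℝ) (i : ℕ)
    (hi : ‖f₀ - ∑ l ∈ Λ, c l • Ψ l‖ ≤ ‖f i‖) :
    ∑ l ∈ Λ with ∀ k < i, j k ≠ l, c l ^ 2
      ≤ M ^ (p.toReal - 2) * (4 * (μ.real Set.univ + 1)) * ‖f i‖ ^ 2 := by
  have hq := q_ge hp2 hpt
  set h := f₀ - ∑ l ∈ Λ, c l • Ψ l with hh
  obtain ⟨G, hG, hfG, _⟩ := run_inv Ψ t f₀ j f hr i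
  set A : Finset ℕ := Λ.filter (fun l => ∀ k < i, j k ≠ l) with hA
  set v := f i - h with hv
  have hv2 : v = ∑ l ∈ Λ, c l • Ψ l - G := by rw [hv, hfG, hh]; abel
  have ho : ∀ i k, i ≠ k → innL hp2 hpt (Ψ k) (Ψ i) = 0 := fun i k hik => horth i k hik
  -- the inner product of `v` with the elements of `A`
  have hvl : ∀ l ∈ A, innL hp2 hpt (Ψ l) v = c l * innL hp2 hpt (Ψ l) (Ψ l) := by
    intro l hl
    rw [hA, Finset.mem_filter] at hl
    have hG0 : innL hp2 hpt (Ψ l) G = 0 := by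
      have : chosenSpan Ψ j i ≤ LinearMap.ker (innL hp2 hpt (Ψ l)) := by
        refine Submodule.span_le.mpr ?_
        rintro g ⟨k, hk, rfl⟩
        exact ho _ _ (hl.2 k hk)
      exact this hG
    rw [hv2, map_sub, hG0, sub_zero, map_sum]
    rw [Finset.sum_eq_single l]
    · rw [map_smul, smul_eq_mul]
    · intro k _ hkl
      rw [map_smul, ho k l hkl, smul_zero]
    · intro h1; exact absurd hl.1 h1
  -- Bessel
  set s := ∑ l ∈ A, c l • Ψ l with hs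
  have hgen : ∀ w : Lp ℝ p μ, innL hp2 hpt s w = ∑ l ∈ A, c l * innL hp2 hpt (Ψ l) w := by
    intro w
    rw [innL_comm hp2 hpt w s, hs, map_sum]
    refine Finset.sum_congr rfl fun l _ => ?_
    rw [map_smul, smul_eq_mul, innL_comm]
  have hsl : ∀ l ∈ A, innL hp2 hpt (Ψ l) s = c l * innL hp2 hpt (Ψ l) (Ψ l) := by
    intro l hl
    rw [hs, map_sum, Finset.sum_eq_single l]
    · rw [map_smul, smul_eq_mul]
    · intro k _ hkl
      rw [map_smul, ho k l hkl, smul_zero]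
    · intro h1; exact absurd hl h1
  have hss : innL hp2 hpt s s = ∑ l ∈ A, c l ^ 2 * innL hp2 hpt (Ψ l) (Ψ l) := by
    rw [hgen s]
    refine Finset.sum_congr rfl fun l hl => ?_
    rw [hsl l hl]; ring
  have hvs : innL hp2 hpt s v = ∑ l ∈ A, c l ^ 2 * innL hp2 hpt (Ψ l) (Ψ l) := by
    rw [hgen v]
    refine Finset.sum_congr rfl fun l hl => ?_
    rw [hvl l hl]; ring
  have hpos := innL_self_nonneg hp2 hpt (v - s)
  have hexp : innL hp2 hpt (v - s) (v - s) = innL hp2 hpt v v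
      - ∑ l ∈ A, c l ^ 2 * innL hp2 hpt (Ψ l) (Ψ l) := by
    have := quad_sub hp2 hpt v s
    rw [this, hss, hvs]
    ring
  have hvv := innL_self_le hp2 hpt v
  have hvn : ‖v‖ ≤ 2 * ‖f i‖ := by
    have := norm_sub_le (f i) h
    rw [← hv] at this
    linarith
  have hMq : 0 ≤ M ^ (p.toReal - 2) := Real.rpow_nonneg hM _
  calc ∑ l ∈ A, c l ^ 2 ≤ ∑ l ∈ A, M ^ (p.toReal - 2) * (c l ^ 2 * innL hp2 hpt (Ψ l) (Ψ l)) := by
        refine Finset.sum_le_sum fun l _ => ?_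
        have h1 := innL_self_ge hp2 hpt (Ψ l) (hnorm l) M hM (hbdd l)
        nlinarith [mul_le_mul_of_nonneg_left h1 (sq_nonneg (c l))]
    _ = M ^ (p.toReal - 2) * ∑ l ∈ A, c l ^ 2 * innL hp2 hpt (Ψ l) (Ψ l) := by
        rw [Finset.mul_sum]
    _ ≤ M ^ (p.toReal - 2) * ((μ.real Set.univ + 1) * (2 * ‖f i‖) ^ 2) := by
        refine mul_le_mul_of_nonneg_left ?_ hMq
        rw [hexp] at hpos
        have h2 : (μ.real Set.univ + 1) * ‖v‖ ^ 2 ≤ (μ.real Set.univ + 1) * (2 * ‖f i‖) ^ 2 := by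
          have : 0 ≤ μ.real Set.univ := measureReal_nonneg
          gcongr
        linarith
    _ = _ := by ring

end proof

/-- Every uniformly bounded orthogonal system `Ψ`, normalised in real `L_p(μ)`, `2 ≤ p < ∞`, `μ` a
finite measure, is almost greedy with respect to the Weak Chebyshev Greedy Algorithm for every
weakness parameter `t ∈ (0,1]`: for every `C > 1` there is `C'` such that every run with every start
`f₀` satisfies `‖f_{⌈C' m⌉}‖ ≤ C σ_m(f₀)` for all `m ≥ 1`. -/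
theorem result {X : Type*} [MeasurableSpace X] (μ : Measure X) [IsFiniteMeasure μ]
    (p : ℝ≥0∞) [Fact (1 ≤ p)] (hp2 : 2 ≤ p) (hpt : p ≠ ⊤)
    (Ψ : ℕ → Lp ℝ p μ) (hnorm : ∀ i, ‖Ψ i‖ = 1)
    (horth : ∀ i k, i ≠ k → ∫ x, Ψ i x * Ψ k x ∂μ = 0)
    (hbdd : ∃ M : ℝ, ∀ i, ∀ᵐ x ∂μ, |Ψ i x| ≤ M)
    (t : ℝ) (ht : 0 < t) (ht1 : t ≤ 1) (C : ℝ) (hC : 1 < C) :
    ∃ C' : ℝ, 0 < C' ∧ ∀ (f₀ : Lp ℝ p μ) (j : ℕ → ℕ) (f : ℕ → Lp ℝ p μ),
      IsRun Ψ t f₀ j f → ∀ m : ℕ, 1 ≤ m → ‖f ⌈C' * m⌉₊‖ ≤ C * sigma Ψ m f₀ := by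
  classical
  obtain ⟨M₀, hM₀⟩ := hbdd
  have hq := q_ge hp2 hpt
  set q := p.toReal with hqdef
  set M := max M₀ 0 with hMdef
  have hM : 0 ≤ M := le_max_right _ _
  have hbdd' : ∀ i, ∀ᵐ x ∂μ, |Ψ i x| ≤ M := by
    intro i
    filter_upwards [hM₀ i] with x hx
    exact hx.trans (le_max_left _ _)
  set δ := 1 - 1 / C with hδdef
  have hCpos : 0 < C := by linarith
  have hδ : 0 < δ := by
    rw [hδdef, sub_pos, div_lt_one hCpos]; exact hC
  set B := M ^ (q - 2) * (4 * (μ.real Set.univ + 1)) with hB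
  have hV : 0 ≤ μ.real Set.univ := measureReal_nonneg
  have hB0 : 0 ≤ B := mul_nonneg (Real.rpow_nonneg hM _) (by linarith)
  set κ := kap q t δ with hκ
  have hκ0 : 0 < κ := kap_pos q t δ hq ht hδ
  set D := B / κ with hDdef
  have hD0 : 0 ≤ D := div_nonneg hB0 hκ0.le
  refine ⟨4 * (D + 1) + 1, by linarith, fun f₀ j f hr m hm => ?_⟩
  set n := ⌈(4 * (D + 1) + 1) * (m : ℝ)⌉₊ with hn
  have hanti := run_anti Ψ t f₀ j f hr
  -- reduce to a fixed `m`-term approximant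
  have key : ∀ (Λ : Finset ℕ) (c : ℕ → ℝ), Λ.card ≤ m →
      ‖f n‖ ≤ C * ‖f₀ - ∑ l ∈ Λ, c l • Ψ l‖ := by
    intro Λ c hΛ
    by_contra hcon
    push Not at hcon
    set h := f₀ - ∑ l ∈ Λ, c l • Ψ l with hh
    have hfi : ∀ i ≤ n, C * ‖h‖ < ‖f i‖ := fun i hi => hcon.trans_le (hanti hi)
    have hfi0 : ∀ i ≤ n, f i ≠ 0 := by
      intro i hi h0
      have h1 := hfi i hi
      rw [h0, norm_zero] at h1
      have : 0 ≤ C * ‖h‖ := by positivity
      linarith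
    have hhle : ∀ i ≤ n, ‖h‖ ≤ (1 - δ) * ‖f i‖ := by
      intro i hi
      have h1 := hfi i hi
      have : 1 - δ = 1 / C := by rw [hδdef]; ring
      rw [this, one_div_mul_eq_div, le_div_iff₀ hCpos]
      linarith
    have hhlt : ∀ i ≤ n, ‖h‖ < ‖f i‖ := by
      intro i hi
      have h1 := hfi i hi
      have : ‖h‖ ≤ C * ‖h‖ := le_mul_of_one_le_left (norm_nonneg _) hC.le
      linarith
    set A : ℕ → Finset ℕ := fun i => Λ.filter (fun l => ∀ k < i, j k ≠ l) with hA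
    set a : ℕ → ℝ := fun i => ∑ l ∈ A i, |c l| with ha
    set b : ℕ → ℝ := fun i => ∑ l ∈ A i, c l ^ 2 with hb
    set x : ℕ → ℝ := fun k => ∑ i ∈ Finset.range k, 1 / (a i) ^ 2 with hx
    have hapos : ∀ i ≤ n, 0 < a i := by
      intro i hi
      by_contra hcon2
      push Not at hcon2
      have ha0 : a i = 0 := le_antisymm hcon2 (Finset.sum_nonneg fun _ _ => abs_nonneg _)
      have hc0 : ∀ l ∈ A i, c l = 0 := by
        intro l hl
        have := (Finset.sum_eq_zero_iff_of_nonneg (fun l _ => abs_nonneg (c l))).mp ha0 l hl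
        exact abs_eq_zero.mp this
      obtain ⟨_, _, _, hmin⟩ := run_inv Ψ t f₀ j f hr i
      have h1 : ∑ l ∈ Λ, c l • Ψ l ∈ chosenSpan Ψ j i := by
        refine Submodule.sum_mem _ fun l hl => ?_
        by_cases hlA : l ∈ A i
        · rw [hc0 l hlA, zero_smul]; exact Submodule.zero_mem _
        · simp only [hA, Finset.mem_filter, not_and] at hlA
          have := hlA hl
          push Not at this
          obtain ⟨k, hk, hkl⟩ := this
          exact Submodule.smul_mem _ _ (Submodule.subset_span ⟨k, hk, by rw [hkl]⟩)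
      have h2 := hmin _ h1
      exact absurd (hhlt i hi) (not_lt.mpr h2)
    -- growth of the inverse square of the norm
    have hgrow : ∀ k ≤ n, κ * x k ≤ 1 / ‖f k‖ ^ 2 := by
      intro k
      induction k with
      | zero =>
        intro _
        simp only [hx, Finset.range_zero, Finset.sum_empty, mul_zero]
        positivity
      | succ k ih =>
        intro hk
        have ih' := ih (by omega)
        have h1 := one_step hp2 hpt Ψ hnorm t ht f₀ j f hr Λ c δ hδ k (hhle k (by omega))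
          (hfi0 k (by omega)) (hfi0 (k + 1) hk) (hapos k (by omega))
        have h2 : x (k + 1) = x k + 1 / (a k) ^ 2 := by
          simp only [hx]; rw [Finset.sum_range_succ]
        rw [h2, mul_add]
        exact (add_le_add ih' le_rfl).trans h1
    have hbk : ∀ k < n, b k * x k ≤ D := by
      intro k hk
      have h1 := bessel hp2 hpt Ψ hnorm horth M hM hbdd' t f₀ j f hr Λ c k (hhlt k hk.le).le
      have h2 := hgrow k hk.le
      have hNk : 0 < ‖f k‖ := norm_pos_iff.mpr (hfi0 k hk.le)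
      have hxk : 0 ≤ x k := Finset.sum_nonneg fun _ _ => by positivity
      have h3 : x k ≤ 1 / (κ * ‖f k‖ ^ 2) := by
        rw [le_div_iff₀ (by positivity)]
        rw [le_div_iff₀ (by positivity)] at h2
        linarith
      calc b k * x k ≤ (B * ‖f k‖ ^ 2) * (1 / (κ * ‖f k‖ ^ 2)) :=
            mul_le_mul h1 h3 hxk (by positivity)
        _ = D := by rw [hDdef]; field_simp
    have hcomb := comb m n Λ hΛ c A (fun i => Finset.filter_subset _ _)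
      (fun i k hik l hl => by
        simp only [hA, Finset.mem_filter] at hl ⊢
        exact ⟨hl.1, fun r hr => hl.2 r (by omega)⟩)
      a b x (fun _ => rfl) (fun _ => rfl) (fun _ => rfl) (fun i hi => hapos i hi.le) D hD0 hbk
    have h1 : (4 * (D + 1) + 1) * (m : ℝ) ≤ n := Nat.le_ceil _
    have h2 : (1 : ℝ) ≤ m := by exact_mod_cast hm
    linarith
  unfold sigma
  rw [Real.mul_iInf_of_nonneg hCpos.le]
  have : Nonempty ({Λ : Finset ℕ // Λ.card ≤ m} × (ℕ → ℝ)) := ⟨(⟨∅, by simp⟩, fun _ => 0)⟩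
  exact le_ciInf fun s => key s.1.1 s.2 s.1.2

end Pool.Agent.Results.MP_f28597_an.AlmostGreedy
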